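import Pool.Agent.N431.PK.Stm
import Pool.Agent.H32CE.TBAS
import Pool.Agent.H32CE.TGRP
import Pool.Agent.H32CE.TINT
import Pool.Agent.H32CE.TF0
import Pool.Agent.H32CE.TWA
import Pool.Agent.H32CE.TP1
import Pool.Agent.H32CE.TGRL
import Pool.Agent.H32CE.TLYN
import Pool.Agent.H32CE.TINJ
import Pool.Agent.H32CE.TMAG

set_option autoImplicit false

/-!
# Roots and commuting elements in parafree groups (MP_f3dc04_al)
-/

namespace Pool.Agent.N531.PK

open Pool.Agent.H32CE (T PS mag magU cf D ex exU br cm PH S_BAS S_GRP S_INT S_P1 S_MAG)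
open Pool.Agent.R684.PN

/-- the algebra homomorphism sending the generators to generators or to `0` -/
noncomputable def phi {ι κ : Type} (g : ι → Option κ) : T ι →ₐ[ℝ] T κ :=
  Pool.Agent.H32CE.sub fun i => (g i).elim 0 Pool.Agent.H32CE.X

theorem phi_X {ι κ : Type} (g : ι → Option κ) (i : ι) :
    phi g (Pool.Agent.H32CE.X i) = (g i).elim 0 Pool.Agent.H32CE.X := by
  unfold phi Pool.Agent.H32CE.sub Pool.Agent.H32CE.X
  rw [MonoidAlgebra.lift_single, one_smul, FreeMonoid.lift_eval_of]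

/-- functoriality of the Magnus expansion -/
theorem map_mag {ι κ : Type} (g : ι → Option κ) (h : FreeGroup ι →* FreeGroup κ)
    (hh : ∀ i, h (FreeGroup.of i) = (g i).elim 1 FreeGroup.of) (x : FreeGroup ι) :
    PowerSeries.map (phi g : T ι →+* T κ) (mag x) = mag (h x) := by
  have key : (Units.map (PowerSeries.map (phi g : T ι →+* T κ)).toMonoidHom).comp (magU ι) =
      (magU κ).comp h := by
    apply FreeGroup.ext_hom
    intro i
    rw [MonoidHom.comp_apply, MonoidHom.comp_apply, hh]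
    have e1 : magU ι (FreeGroup.of i) = exU 1 le_rfl (Pool.Agent.H32CE.X i) := by
      simp [magU]
    have e2 : magU κ ((g i).elim 1 FreeGroup.of) =
        exU 1 le_rfl ((g i).elim 0 Pool.Agent.H32CE.X) := by
      cases hg : g i with
      | none =>
        simp only [Option.elim]
        rw [map_one]
        apply Units.ext
        exact (Pool.Agent.H32CE.ex_zero 1 le_rfl).symm
      | some k => simp [magU]
    rw [e1, e2]
    apply Units.ext
    change PowerSeries.map (phi g : T ι →+* T κ) (ex 1 (Pool.Agent.H32CE.X i)) =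
      ex 1 ((g i).elim 0 Pool.Agent.H32CE.X)
    rw [← phi_X]
    ext1 n
    rw [PowerSeries.coeff_map]
    simp only [ex, PowerSeries.coeff_mk, one_dvd, if_true]
    change phi g _ = _
    rw [map_smul, map_pow]
  have := congrArg (fun f : FreeGroup ι →* (PS (T κ))ˣ => ((f x : (PS (T κ))ˣ) : PS (T κ))) key
  exact this

theorem D_map {ι κ : Type} (g : ι → Option κ) (h : FreeGroup ι →* FreeGroup κ)
    (hh : ∀ i, h (FreeGroup.of i) = (g i).elim 1 FreeGroup.of) (k : ℕ) (x : FreeGroup ι)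
    (hx : D k x) : D k (h x) := by
  intro i h1 h2
  have h3 := hx i h1 h2
  unfold cf at h3 ⊢
  rw [← map_mag g h hh, PowerSeries.coeff_map, h3, map_zero]

/-- every element of a free group is fixed by the endomorphisms fixing finitely many letters -/
theorem supp {α : Type} (x : FreeGroup α) : ∃ Y : Finset α, ∀ r : FreeGroup α →* FreeGroup α,
    (∀ t ∈ Y, r (FreeGroup.of t) = FreeGroup.of t) → r x = x := by
  classical
  induction x using FreeGroup.induction_on with
  | C1 => exact ⟨∅, fun r _ => map_one r⟩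
  | of t => exact ⟨{t}, fun r hr => hr t (by simp)⟩
  | inv_of t _ => exact ⟨{t}, fun r hr => by rw [map_inv]; rw [hr t (by simp)]⟩
  | mul x y hx hy =>
    obtain ⟨Y, hY⟩ := hx
    obtain ⟨Z, hZ⟩ := hy
    refine ⟨Y ∪ Z, fun r hr => ?_⟩
    rw [map_mul, hY r fun t ht => hr t (Finset.mem_union_left _ ht),
      hZ r fun t ht => hr t (Finset.mem_union_right _ ht)]

theorem lc_map {G K : Type} [Group G] [Group K] (f : G →* K) (n : ℕ) {x : G} (h : x ∈ lc G n) :
    f x ∈ lc K n := by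
  have h1 : f x ∈ (lc G n).map f := Subgroup.mem_map_of_mem f h
  rw [Subgroup.map_lowerCentralSeries] at h1
  exact Subgroup.lowerCentralSeries_mono n le_top h1

/-- Magnus' theorem for free groups of arbitrary rank -/
theorem magX (hM : S_MAG) (α : Type) (c : ℕ) (x : FreeGroup α) :
    D (c + 1) x ↔ x ∈ lc (FreeGroup α) c := by
  classical
  obtain ⟨Y, hY⟩ := supp x
  let e := Y.equivFin
  let f : Fin Y.card → α := fun i => (e.symm i : α)
  let g : α → Option (Fin Y.card) := fun t => if h : t ∈ Y then some (e ⟨t, h⟩) else none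
  let ρ : FreeGroup α →* FreeGroup (Fin Y.card) := FreeGroup.lift fun t => (g t).elim 1 FreeGroup.of
  let j : FreeGroup (Fin Y.card) →* FreeGroup α := FreeGroup.lift fun i => FreeGroup.of (f i)
  have hρ : ∀ t, ρ (FreeGroup.of t) = (g t).elim 1 FreeGroup.of := fun t => by
    simp [ρ]
  have hj : ∀ i, j (FreeGroup.of i) = ((fun i => some (f i) : Fin Y.card → Option α) i).elim 1
      FreeGroup.of := fun i => by simp [j]
  have hx : j (ρ x) = x := by
    apply hY (j.comp ρ)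
    intro t ht
    rw [MonoidHom.comp_apply, hρ]
    have : g t = some (e ⟨t, ht⟩) := by simp only [g]; rw [dif_pos ht]
    rw [this]
    simp only [Option.elim]
    rw [hj]
    simp [f]
  constructor
  · intro h
    have h1 := (hM _ c _).1 (D_map g ρ hρ _ x h)
    rw [← hx]
    exact lc_map j c h1
  · intro h
    have h1 := (hM _ c (ρ x)).2 (lc_map ρ c h)
    rw [← hx]
    exact D_map _ j hj _ _ h1

/-- membership in the lower central series of the quotient -/
theorem mem_quot {G : Type} [Group G] (N n : ℕ) (hn : n ≤ N) (x : G) :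
    (QuotientGroup.mk x : G ⧸ lc G N) ∈ lc (G ⧸ lc G N) n ↔ x ∈ lc G n := by
  constructor
  · intro h
    have e : lc (G ⧸ lc G N) n = (lc G n).map (QuotientGroup.mk' (lc G N)) := by
      rw [Subgroup.map_lowerCentralSeries, ← MonoidHom.range_eq_map,
        MonoidHom.range_eq_top.2 (QuotientGroup.mk'_surjective _)]
    rw [e] at h
    obtain ⟨y, hy, hxy⟩ := h
    have h1 : y⁻¹ * x ∈ lc G N := QuotientGroup.eq.1 hxy
    have h2 := Subgroup.lowerCentralSeries_antitone (⊤ : Subgroup G) hn h1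
    have h3 := (lc G n).mul_mem hy h2
    rwa [mul_inv_cancel_left] at h3
  · intro h
    exact lc_map (QuotientGroup.mk' (lc G N)) n h

theorem transfer {G K : Type} [Group G] [Group K] (N n : ℕ) (hn : n ≤ N)
    (e : G ⧸ lc G N ≃* K ⧸ lc K N) (x : G) (y : K)
    (h : e (QuotientGroup.mk x) = QuotientGroup.mk y) : x ∈ lc G n ↔ y ∈ lc K n := by
  rw [← mem_quot N n hn x, ← mem_quot N n hn y, ← h]
  constructor
  · intro h1
    exact lc_map e.toMonoidHom n h1
  · intro h1
    have h2 := lc_map e.symm.toMonoidHom n h1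
    simpa using h2

/-- depth of a nontrivial element -/
theorem depth {P : Type} [Group P] (hP : ResNil P) (a : P) (ha : a ≠ 1) :
    ∃ n, a ∈ lc P n ∧ a ∉ lc P (n + 1) := by
  classical
  have h1 : ∃ n, a ∉ lc P n := by
    by_contra hcon
    push Not at hcon
    exact ha (hP a hcon)
  have h0 : a ∈ lc P 0 := Subgroup.mem_top a
  have h2 : Nat.find h1 ≠ 0 := by
    intro h
    have := Nat.find_spec h1
    rw [h] at this
    exact this h0
  obtain ⟨n, hn⟩ := Nat.exists_eq_succ_of_ne_zero h2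
  refine ⟨n, ?_, ?_⟩
  · by_contra hc
    have := Nat.find_min' h1 hc
    omega
  · have := Nat.find_spec h1
    rw [hn] at this
    exact this

section
variable {α : Type}

theorem D_succ (k : ℕ) (hk : 1 ≤ k) (x : FreeGroup α) : D (k + 1) x ↔ D k x ∧ cf k x = 0 := by
  constructor
  · intro h
    exact ⟨fun i h1 h2 => h i h1 (by omega), h k hk (by omega)⟩
  · rintro ⟨h1, h2⟩ i h3 h4
    rcases Nat.lt_succ_iff_lt_or_eq.1 h4 with h5 | h5
    · exact h1 i h3 h5
    · rw [h5]; exact h2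

theorem D_mono {k l : ℕ} (h : k ≤ l) (x : FreeGroup α) (hx : D l x) : D k x :=
  fun i h1 h2 => hx i h1 (by omega)

theorem D_one (k : ℕ) : D k (1 : FreeGroup α) ∧ ∀ i, 1 ≤ i → cf i (1 : FreeGroup α) = 0 := by
  have h : ∀ i, 1 ≤ i → cf i (1 : FreeGroup α) = 0 := by
    intro i hi
    unfold cf mag
    rw [map_one, Units.val_one, PowerSeries.coeff_one, if_neg (by omega)]
  exact ⟨fun i h1 _ => h i h1, h⟩

theorem cf_pow (hB : S_BAS) (m : ℕ) (hm : 1 ≤ m) (x : FreeGroup α) (hx : D m x) (k : ℕ) :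
    D m (x ^ k) ∧ cf m (x ^ k) = (k : ℝ) • cf m x := by
  induction k with
  | zero =>
    rw [pow_zero]
    refine ⟨(D_one m).1, ?_⟩
    rw [(D_one m).2 m hm]; simp
  | succ k ih =>
    rw [pow_succ]
    refine ⟨(hB α).2.2.1 m _ _ ih.1 hx, ?_⟩
    rw [(hB α).2.2.2.2.2.1 m m _ _ ih.1 hx m hm (by omega), ih.2]
    push_cast
    rw [add_smul, one_smul]

theorem cf_zpow (hB : S_BAS) (m : ℕ) (hm : 1 ≤ m) (x : FreeGroup α) (hx : D m x) (k : ℤ) :
    D m (x ^ k) ∧ cf m (x ^ k) = (k : ℝ) • cf m x := by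
  cases k with
  | ofNat k => simpa using cf_pow hB m hm x hx k
  | negSucc k =>
    have h := cf_pow hB m hm x hx (k + 1)
    rw [zpow_negSucc]
    refine ⟨(hB α).2.2.2.1 m _ h.1, ?_⟩
    rw [(hB α).2.2.2.2.2.2.1 m _ h.1 m hm (by omega), h.2, ← neg_smul]
    congr 1
    push_cast
    ring

end

theorem rootX (hB : S_BAS) (hI : S_INT) {α : Type} (n : ℕ) (a : FreeGroup α) (ha : D (n + 1) a)
    (ha' : ¬ D (n + 2) a) : ∃ K : ℕ, ∀ (b : FreeGroup α) (k : ℕ), D (n + 2) ((b ^ k)⁻¹ * a) →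
    k ≤ K := by
  have h0 : cf (n + 1) a ≠ 0 := by
    intro h
    exact ha' ((D_succ (n + 1) (by omega) a).2 ⟨ha, h⟩)
  have h1 : ∃ w, (cf (n + 1) a).coeff w ≠ 0 := by
    by_contra hcon
    push Not at hcon
    apply h0
    ext w
    simpa using hcon w
  obtain ⟨w, hw⟩ := h1
  obtain ⟨z, hz⟩ := hI α (n + 1) a w
  have hz0 : z ≠ 0 := by
    rintro rfl
    have : ((n + 1).factorial : ℝ) ≠ 0 := by positivity
    rw [Int.cast_zero] at hz
    rcases mul_eq_zero.1 hz with h | h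
    · exact this h
    · exact hw h
  refine ⟨z.natAbs, fun b k hb => ?_⟩
  rcases Nat.eq_zero_or_pos k with hk | hk
  · omega
  have hkR : (k : ℝ) ≠ 0 := by positivity
  have h2 := ((hB α).2.2.2.2.2.2.2.2.2.2 (n + 1) (b ^ k) a).2 hb
  have h3 : ∀ j, j ≤ n + 1 → D j b := by
    intro j
    induction j with
    | zero => intro _ i h1 h2; omega
    | succ j ih =>
      intro hj
      have h4 := ih (by omega)
      rcases Nat.eq_zero_or_pos j with hj0 | hj0
      · intro i h5 h6; omega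
      · rw [D_succ j hj0]
        refine ⟨h4, ?_⟩
        have h5 := (cf_pow hB j hj0 b h4 k).2
        rw [h2 j hj0 (by omega), ha j hj0 (by omega)] at h5
        rcases smul_eq_zero.1 h5.symm with h6 | h6
        · exact absurd h6 hkR
        · exact h6
  have h4 := (cf_pow hB (n + 1) (by omega) b (h3 (n + 1) le_rfl) k).2
  rw [h2 (n + 1) (by omega) le_rfl] at h4
  obtain ⟨y, hy⟩ := hI α (n + 1) b w
  have h5 : z = k * y := by
    have : (z : ℝ) = k * y := by
      rw [← hz, h4, ← hy]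
      rw [MonoidAlgebra.coeff_smul]
      simp only [Finsupp.smul_apply, smul_eq_mul]
      ring
    exact_mod_cast this
  have h6 : (k : ℤ) ∣ z := ⟨y, h5⟩
  have h7 := Int.natAbs_dvd_natAbs.2 h6
  rw [Int.natAbs_natCast] at h7
  exact Nat.le_of_dvd (Int.natAbs_pos.2 hz0) h7

theorem root_of (hM : S_MAG) (hB : S_BAS) (hI : S_INT) : Pool.Agent.N431.PK.S_ROOT := by
  intro P X _ hS hR a ha
  obtain ⟨n, h1, h2⟩ := depth hR a ha
  obtain ⟨e⟩ := hS (n + 1)
  obtain ⟨a', ha'⟩ := QuotientGroup.mk_surjective (e (QuotientGroup.mk a))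
  have h3 := (transfer (n + 1) n (by omega) e a a' ha'.symm).1 h1
  have h4 : a' ∉ lc (FreeGroup X) (n + 1) := fun h =>
    h2 ((transfer (n + 1) (n + 1) le_rfl e a a' ha'.symm).2 h)
  rw [← magX hM] at h3 h4
  obtain ⟨K, hK⟩ := rootX hB hI n a' h3 h4
  refine ⟨K, fun b k hb => ?_⟩
  obtain ⟨b', hb'⟩ := QuotientGroup.mk_surjective (e (QuotientGroup.mk b))
  apply hK b' k
  rw [magX hM]
  apply QuotientGroup.eq.1
  rw [ha', ← hb, QuotientGroup.mk_pow, QuotientGroup.mk_pow, map_pow, hb']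

theorem com_step (hM : S_MAG) (hB : S_BAS) (hG : S_GRP) (hI : S_INT) (hP1 : S_P1)
    {P X : Type} [Group P] (hS : SameLCQ P X) (a b : P) (n n' : ℕ) (ha : a ∈ lc P n)
    (ha' : a ∉ lc P (n + 1)) (hb : b ∈ lc P n') (hb' : b ∉ lc P (n' + 1)) (hab : a * b = b * a) :
    n = n' ∧ ∃ m s : ℤ, m ≠ 0 ∧ b ^ m * a ^ (-s) ∈ lc P (n + 1) := by
  obtain ⟨e⟩ := hS (n + n' + 2)
  obtain ⟨x, hx⟩ := QuotientGroup.mk_surjective (e (QuotientGroup.mk a))
  obtain ⟨y, hy⟩ := QuotientGroup.mk_surjective (e (QuotientGroup.mk b))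
  have x1 := (transfer (n + n' + 2) n (by omega) e a x hx.symm).1 ha
  have x2 : x ∉ lc (FreeGroup X) (n + 1) := fun h =>
    ha' ((transfer (n + n' + 2) (n + 1) (by omega) e a x hx.symm).2 h)
  have y1 := (transfer (n + n' + 2) n' (by omega) e b y hy.symm).1 hb
  have y2 : y ∉ lc (FreeGroup X) (n' + 1) := fun h =>
    hb' ((transfer (n + n' + 2) (n' + 1) (by omega) e b y hy.symm).2 h)
  rw [← magX hM] at x1 x2 y1 y2
  have x3 : cf (n + 1) x ≠ 0 := fun h => x2 ((D_succ (n + 1) (by omega) x).2 ⟨x1, h⟩)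
  have y3 : cf (n' + 1) y ≠ 0 := fun h => y2 ((D_succ (n' + 1) (by omega) y).2 ⟨y1, h⟩)
  have c1 := (hB X).2.2.2.2.2.2.2.2.1 (n + 1) (n' + 1) x y (by omega) (by omega) x1 y1
  have c2 : cm x y ∈ lc (FreeGroup X) (n + n' + 2) := by
    have h1 : (QuotientGroup.mk (y * x) : FreeGroup X ⧸ lc (FreeGroup X) (n + n' + 2)) =
        QuotientGroup.mk (x * y) := by
      rw [QuotientGroup.mk_mul, QuotientGroup.mk_mul, hx, hy, ← map_mul, ← map_mul,
        ← QuotientGroup.mk_mul, ← QuotientGroup.mk_mul, hab]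
    have h2 := QuotientGroup.eq.1 h1
    have h3 : cm x y = (y * x)⁻¹ * (x * y) := by
      unfold cm; group
    rw [h3]; exact h2
  rw [← magX hM] at c2
  have c3 := c2 (n + 1 + (n' + 1)) (by omega) (by omega)
  rw [c1.2] at c3
  obtain ⟨hpq, c, hc⟩ := hP1 X (n + 1) (n' + 1) _ _ (by omega) (by omega)
    ((hG X).1 (n + 1) x x1 (n + 1) (by omega) (by omega))
    ((hG X).1 (n' + 1) y y1 (n' + 1) (by omega) (by omega)) x3 y3 c3
  have hnn : n = n' := by omega
  subst hnn
  refine ⟨rfl, ?_⟩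
  have h1 : ∃ w, (cf (n + 1) x).coeff w ≠ 0 := by
    by_contra hcon
    push Not at hcon
    apply x3
    ext w
    simpa using hcon w
  obtain ⟨w, hw⟩ := h1
  obtain ⟨z, hz⟩ := hI X (n + 1) x w
  obtain ⟨u, hu⟩ := hI X (n + 1) y w
  have hz0 : z ≠ 0 := by
    rintro rfl
    have : ((n + 1).factorial : ℝ) ≠ 0 := by positivity
    rw [Int.cast_zero] at hz
    rcases mul_eq_zero.1 hz with h | h
    · exact this h
    · exact hw h
  have hcu : (u : ℝ) = c * z := by
    rw [← hu, hc, ← hz]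
    rw [MonoidAlgebra.coeff_smul]
    simp only [Finsupp.smul_apply, smul_eq_mul]
    ring
  refine ⟨z, u, hz0, ?_⟩
  have d1 := cf_zpow hB (n + 1) (by omega) y y1 z
  have d2 := cf_zpow hB (n + 1) (by omega) x x1 (-u)
  have d3 : D (n + 2) (y ^ z * x ^ (-u)) := by
    rw [D_succ (n + 1) (by omega)]
    refine ⟨(hB X).2.2.1 _ _ _ d1.1 d2.1, ?_⟩
    rw [(hB X).2.2.2.2.2.1 (n + 1) (n + 1) _ _ d1.1 d2.1 (n + 1) (by omega) (by omega), d1.2,
      d2.2, hc, smul_smul, ← add_smul]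
    have : (z : ℝ) * c + ((-u : ℤ) : ℝ) = 0 := by
      push_cast
      rw [hcu]; ring
    rw [this, zero_smul]
  rw [magX hM] at d3
  refine (transfer (n + n + 2) (n + 1) (by omega) e _ _ ?_).2 d3
  rw [QuotientGroup.mk_mul, QuotientGroup.mk_mul, map_mul, QuotientGroup.mk_zpow,
    QuotientGroup.mk_zpow, QuotientGroup.mk_zpow, QuotientGroup.mk_zpow, map_zpow, map_zpow,
    hx, hy]

theorem com_of (hM : S_MAG) (hB : S_BAS) (hG : S_GRP) (hI : S_INT) (hP1 : S_P1) :
    Pool.Agent.N431.PK.S_COM := by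
  intro P X _ hS hR a b ha hab
  by_cases hb : b = 1
  · exact ⟨1, 0, one_ne_zero, by rw [hb]; simp⟩
  obtain ⟨n, a1, a2⟩ := depth hR a ha
  obtain ⟨n', b1, b2⟩ := depth hR b hb
  obtain ⟨h1, m, s, hm, h2⟩ := com_step hM hB hG hI hP1 hS a b n n' a1 a2 b1 b2 hab
  refine ⟨m, s, hm, ?_⟩
  by_cases hg : b ^ m * a ^ (-s) = 1
  · rw [zpow_neg, mul_inv_eq_one] at hg
    exact hg
  exfalso
  obtain ⟨k, g1, g2⟩ := depth hR _ hg
  have hc : Commute a b := hab
  have hc2 : Commute a (b ^ m * a ^ (-s)) :=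
    (hc.zpow_right m).mul_right ((Commute.refl a).zpow_right (-s))
  obtain ⟨h3, -⟩ := com_step hM hB hG hI hP1 hS a _ n k a1 a2 g1 g2 hc2.eq
  subst h3
  exact g2 h2

theorem h_BAS : S_BAS := Pool.Agent.H32CE.t_BAS

theorem h_MAG : S_MAG :=
  Pool.Agent.H32CE.t_MAG Pool.Agent.H32CE.t_GRL (Pool.Agent.H32CE.t_INJ Pool.Agent.H32CE.t_LYN) h_BAS

theorem h_P1 : S_P1 := Pool.Agent.H32CE.t_P1 Pool.Agent.H32CE.t_F0 Pool.Agent.H32CE.t_WA

/-- Roots are bounded. -/
theorem t_ROOT : Pool.Agent.N431.PK.S_ROOT := root_of h_MAG h_BAS Pool.Agent.H32CE.t_INT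

/-- Commuting elements. -/
theorem t_COM : Pool.Agent.N431.PK.S_COM :=
  com_of h_MAG h_BAS (Pool.Agent.H32CE.t_GRP h_BAS) Pool.Agent.H32CE.t_INT h_P1

end Pool.Agent.N531.PK
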